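import Pool.Agent.helper22.DL.SpecE1

/-!
# EKB: elementary inequalities
-/

namespace Pool.Agent.DL

open Matrix Complex MeasureTheory Set Filter Topology
open scoped ComplexOrder Manifold ContDiff ComplexConjugate

lemma EKB_1 (s t x y : ℝ) (hs : 0 ≤ s) (ht : 0 ≤ t) (hx : 0 < x) (hy : 0 < y) :
    x ^ (-s) * y ^ (-t) ≤ x ^ (-(s + t)) + y ^ (-(s + t)) := by
  have hx1 : 0 < x ^ (-(s + t)) := Real.rpow_pos_of_pos hx _
  have hy1 : 0 < y ^ (-(s + t)) := Real.rpow_pos_of_pos hy _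
  rcases le_total x y with h | h
  · have h1 : y ^ (-t) ≤ x ^ (-t) := Real.rpow_le_rpow_of_nonpos hx h (by linarith)
    have h2 : x ^ (-s) * y ^ (-t) ≤ x ^ (-s) * x ^ (-t) :=
      mul_le_mul_of_nonneg_left h1 (Real.rpow_pos_of_pos hx _).le
    rw [← Real.rpow_add hx] at h2
    have h3 : -s + -t = -(s + t) := by ring
    rw [h3] at h2
    linarith
  · have h1 : x ^ (-s) ≤ y ^ (-s) := Real.rpow_le_rpow_of_nonpos hy h (by linarith)
    have h2 : x ^ (-s) * y ^ (-t) ≤ y ^ (-s) * y ^ (-t) :=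
      mul_le_mul_of_nonneg_right h1 (Real.rpow_pos_of_pos hy _).le
    rw [← Real.rpow_add hy] at h2
    have h3 : -s + -t = -(s + t) := by ring
    rw [h3] at h2
    linarith

/-- subadditivity -/
lemma EKB_sub (p x y : ℝ) (hp : 0 ≤ p) (hp1 : p ≤ 1) (hx : 0 ≤ x) (hy : 0 ≤ y) :
    (x + y) ^ p ≤ x ^ p + y ^ p := Real.rpow_add_le_add_rpow hx hy hp hp1

/-- the common estimate: `d ^ p ≤ x ^ p + y ^ p` gives `d ^ p / (x y) ≤ 2 (x^{p-2} + y^{p-2})` -/
lemma EKB_c (p d x y : ℝ) (hp : 0 ≤ p) (hp1 : p ≤ 1) (hx : 0 < x) (hy : 0 < y) (hd : 0 ≤ d)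
    (hdxy : d ≤ x + y) : d ^ p / (x * y) ≤ 2 * (x ^ (-(2 - p)) + y ^ (-(2 - p))) := by
  have h1 : d ^ p ≤ x ^ p + y ^ p :=
    (Real.rpow_le_rpow hd hdxy hp).trans (EKB_sub p x y hp hp1 hx.le hy.le)
  have h2 : d ^ p / (x * y) ≤ (x ^ p + y ^ p) / (x * y) :=
    div_le_div_of_nonneg_right h1 (by positivity)
  have hx1 : x ^ (p - 1) = x ^ p / x := by rw [Real.rpow_sub hx, Real.rpow_one]
  have hy1 : y ^ (p - 1) = y ^ p / y := by rw [Real.rpow_sub hy, Real.rpow_one]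
  have hxi : x ^ (-1 : ℝ) = 1 / x := by rw [Real.rpow_neg hx.le, Real.rpow_one, one_div]
  have hyi : y ^ (-1 : ℝ) = 1 / y := by rw [Real.rpow_neg hy.le, Real.rpow_one, one_div]
  have h3 : (x ^ p + y ^ p) / (x * y) = x ^ (-(1 - p)) * y ^ (-1 : ℝ) + x ^ (-1 : ℝ) * y ^ (-(1 - p)) := by
    have e1 : -(1 - p) = p - 1 := by ring
    rw [e1, hx1, hy1, hxi, hyi]
    field_simp
  have h4 := EKB_1 (1 - p) 1 x y (by linarith) zero_le_one hx hy
  have h5 := EKB_1 1 (1 - p) x y zero_le_one (by linarith) hx hy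
  have e2 : -(1 - p + 1) = -(2 - p) := by ring
  have e3 : -(1 + (1 - p)) = -(2 - p) := by ring
  rw [e2] at h4
  rw [e3] at h5
  linarith

lemma EKB_log (x y : ℝ) (hy : 0 < y) (hxy : y ≤ x) :
    Real.log x - Real.log y ≤ 4 * (x - y) ^ (1 / 4 : ℝ) * y ^ (-(1 / 4) : ℝ) := by
  have hx : 0 < x := lt_of_lt_of_le hy hxy
  have h1 : Real.log x - Real.log y = 4 * Real.log ((x / y) ^ (1 / 4 : ℝ)) := by
    rw [Real.log_rpow (by positivity), Real.log_div hx.ne' hy.ne']; ring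
  have h2 : Real.log ((x / y) ^ (1 / 4 : ℝ)) ≤ (x / y) ^ (1 / 4 : ℝ) - 1 :=
    Real.log_le_sub_one_of_pos (Real.rpow_pos_of_pos (by positivity) _)
  have h3 : x ^ (1 / 4 : ℝ) ≤ (x - y) ^ (1 / 4 : ℝ) + y ^ (1 / 4 : ℝ) := by
    have := EKB_sub (1 / 4) (x - y) y (by norm_num) (by norm_num) (by linarith) hy.le
    rwa [sub_add_cancel] at this
  have hyp : 0 < y ^ (1 / 4 : ℝ) := Real.rpow_pos_of_pos hy _
  have h4 : (x / y) ^ (1 / 4 : ℝ) - 1 ≤ (x - y) ^ (1 / 4 : ℝ) * y ^ (-(1 / 4) : ℝ) := by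
    rw [Real.div_rpow hx.le hy.le, Real.rpow_neg hy.le, ← div_eq_mul_inv, sub_le_iff_le_add]
    rw [div_le_iff₀ hyp, add_mul, div_mul_cancel₀ _ hyp.ne']
    linarith
  rw [h1]
  linarith

theorem EKB : EKB_stmt := by
  refine ⟨EKB_1, ?_, ?_, ?_⟩
  · intro δ x y hx hy hδ hδxy
    have h := EKB_c (1 / 2) δ x y (by norm_num) (by norm_num) hx hy hδ hδxy
    have e : (-(2 - 1 / 2) : ℝ) = -(3 / 2) := by norm_num
    rw [e] at h
    have hs : δ ^ (1 / 2 : ℝ) * δ ^ (1 / 2 : ℝ) = δ := by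
      rw [← Real.sqrt_eq_rpow, Real.mul_self_sqrt hδ]
    have hn : 0 ≤ δ ^ (1 / 2 : ℝ) := Real.rpow_nonneg hδ _
    have h2 := mul_le_mul_of_nonneg_left h hn
    have e2 : δ ^ (1 / 2 : ℝ) * (δ ^ (1 / 2 : ℝ) / (x * y)) = δ / (x * y) := by
      rw [← mul_div_assoc, hs]
    rw [e2] at h2
    linarith
  · intro x y hx hy
    have hxp : 0 < x ^ (-(1 / 4) : ℝ) := Real.rpow_pos_of_pos hx _
    have hyp : 0 < y ^ (-(1 / 4) : ℝ) := Real.rpow_pos_of_pos hy _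
    rcases le_total y x with h | h
    · have h0 : Real.log y ≤ Real.log x := Real.log_le_log hy h
      rw [abs_of_nonneg (by linarith), abs_of_nonneg (by linarith : 0 ≤ x - y)]
      have h1 := EKB_log x y hy h
      have h2 : 0 ≤ 4 * (x - y) ^ (1 / 4 : ℝ) := by
        have := Real.rpow_nonneg (by linarith : 0 ≤ x - y) (1 / 4 : ℝ)
        linarith
      have h3 := mul_nonneg h2 hxp.le
      rw [mul_add]
      linarith
    · have h0 : Real.log x ≤ Real.log y := Real.log_le_log hx h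
      rw [abs_sub_comm, abs_sub_comm x y]
      rw [abs_of_nonneg (by linarith), abs_of_nonneg (by linarith : 0 ≤ y - x)]
      have h1 := EKB_log y x hx h
      have h2 : 0 ≤ 4 * (y - x) ^ (1 / 4 : ℝ) := by
        have := Real.rpow_nonneg (by linarith : 0 ≤ y - x) (1 / 4 : ℝ)
        linarith
      have h3 := mul_nonneg h2 hyp.le
      rw [mul_add]
      linarith
  · intro d x y hx hy hd hdxy
    have h := EKB_c (1 / 8) d x y (by norm_num) (by norm_num) hx hy hd.le hdxy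
    have e : (-(2 - 1 / 8) : ℝ) = -(15 / 8) := by norm_num
    rw [e] at h
    have hn : 0 ≤ d ^ (-(1 / 8) : ℝ) := Real.rpow_nonneg hd.le _
    have h2 := mul_le_mul_of_nonneg_left h hn
    have e2 : d ^ (-(1 / 8) : ℝ) * (d ^ (1 / 8 : ℝ) / (x * y)) = 1 / (x * y) := by
      rw [← mul_div_assoc, ← Real.rpow_add hd]
      norm_num
    rw [e2] at h2
    linarith

end Pool.Agent.DL
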