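import Pool.Agent.helper67.DL.SpecG

/-! # Module dl:BG -/

namespace Pool.Agent.DL

open Matrix Complex
open scoped ComplexOrder Manifold ContDiff

theorem BG (hEX : EX_stmt) : BG_stmt := by
  intro X _ _ D hT hD
  obtain ⟨h1, h2, h3, h4⟩ := hT
  obtain ⟨-, hw1, hw2, -⟩ := hEX X D hD 1 1 one_pos one_pos
  refine ⟨h1, h2, h3, h4, w1 D, w2 D, hw1, hw2, ?_⟩
  intro a b hab
  have hx0 := hab D.x0
  have e1 : w1 D (chartAt ℂ D.x0) D.x0 = D.η0 (chartAt ℂ D.x0) D.x0 := by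
    simp only [w1, hD.x0mem, if_true]
  have e2 : w2 D (chartAt ℂ D.x0) D.x0 = 0 := by
    simp only [w2, hD.x0mem, if_true, hD.x0z, zero_mul]
  rw [e1, e2, mul_zero, add_zero] at hx0
  have ha : a = 0 := (mul_eq_zero.1 hx0).resolve_right (hD.ne0 D.x0 hD.x0mem)
  refine ⟨ha, ?_⟩
  have hz : (1 / 4 : ℂ) ∈ Metric.ball (0 : ℂ) (1 / 2) := by
    rw [Metric.mem_ball, dist_zero_right]
    norm_num
  obtain ⟨hm, hζ, -⟩ := hD.e0z (1 / 4) hz
  have hx := hab (D.e0.symm (1 / 4))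
  have e3 : w2 D (chartAt ℂ (D.e0.symm (1 / 4))) (D.e0.symm (1 / 4)) =
      1 / 4 * D.η0 (chartAt ℂ (D.e0.symm (1 / 4))) (D.e0.symm (1 / 4)) := by
    simp only [w2, hm, if_true, hζ]
  rw [ha, zero_mul, zero_add, e3] at hx
  have hne := hD.ne0 _ hm
  rcases mul_eq_zero.1 hx with h | h
  · exact h
  · rcases mul_eq_zero.1 h with h | h
    · norm_num at h
    · exact absurd h hne

end Pool.Agent.DL
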