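import Pool.Agent.helper67.DL.SpecX

namespace Pool.Agent.DL

open Matrix Complex
open scoped ComplexOrder Manifold ContDiff

noncomputable section

theorem X07_mm : DifferentiableOn ℂ (fun x : ℂ => mm (x ^ 4)) gT := by
  intro x hx
  have h1 : DifferentiableAt ℂ (fun x : ℂ => (1 - x ^ 4) / (1 + x ^ 4)) x := by
    refine DifferentiableAt.div (by fun_prop) (by fun_prop) hx.1
  exact h1.differentiableWithinAt

theorem X07 (h1 : X01_stmt) (h2 : X02_stmt) : X07_stmt := by
  obtain ⟨-, -, -, -, hp, -, -⟩ := h1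
  obtain ⟨hr, -, -, -, hd, -⟩ := h2
  intro ch hch c e he
  obtain ⟨hs, ht, -, hi⟩ := hch.1 c
  subst he
  set e := ch (Sum.inl c) with hee
  have hY : DifferentiableOn ℂ (fun x : ℂ => (c : ℂ) * r2 (mm (x ^ 4))) gT := by
    refine DifferentiableOn.const_mul ?_ _
    exact hd.comp X07_mm fun x hx => hx.2
  have hc0 : (c : ℂ) ≠ 0 := by
    intro h0
    have := c.2
    rw [h0] at this
    norm_num at this
  have hY0 : ∀ x ∈ gT, (c : ℂ) * r2 (mm (x ^ 4)) ≠ 0 := by
    intro x hx h0
    rcases mul_eq_zero.1 h0 with h | h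
    · exact hc0 h
    · have h3 := (hr _ hx.2).2
      rw [h] at h3
      simp at h3
  rw [ht]
  have hZi : ∀ x ∈ gT, fZ (e.symm x) = if (c : ℂ) ^ 2 = 1 then x else x⁻¹ := by
    intro x hx
    unfold fZ
    rw [hi x hx]
    unfold gi
    split_ifs with h
    · exact (hp x).1
    · exact (hp x).2.2.2
  have hNi : ∀ x ∈ gT, fN (e.symm x) = if (c : ℂ) ^ 2 = 1 then x⁻¹ else x := by
    intro x hx
    unfold fN
    rw [hi x hx]
    unfold gi
    split_ifs with h
    · exact (hp x).2.1
    · exact (hp x).2.2.1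
  have hYi : ∀ x ∈ gT, fY (e.symm x) = (c : ℂ) * r2 (mm (x ^ 4)) := by
    intro x hx
    unfold fY
    rw [hi x hx]
    exact (hp _).1
  have hVi : ∀ x ∈ gT, fV (e.symm x) = ((c : ℂ) * r2 (mm (x ^ 4)))⁻¹ := by
    intro x hx
    unfold fV
    rw [hi x hx]
    exact (hp _).2.1
  refine ⟨?_, ?_, ?_, ?_⟩
  · have h : DifferentiableOn ℂ (fun x : ℂ => if (c : ℂ) ^ 2 = 1 then x else x⁻¹)
        (gT ∩ e.symm ⁻¹' uZ) := by
      by_cases h : (c : ℂ) ^ 2 = 1
      · simp only [h, if_true]
        exact differentiableOn_id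
      · simp only [h, if_false]
        intro x hx
        refine (differentiableAt_inv ?_).differentiableWithinAt
        rintro rfl
        refine hx.2 ?_
        rw [hi 0 hx.1]
        simp [gi, h, ic]
    exact h.congr fun x hx => hZi x hx.1
  · have h : DifferentiableOn ℂ (fun x : ℂ => if (c : ℂ) ^ 2 = 1 then x⁻¹ else x)
        (gT ∩ e.symm ⁻¹' uN) := by
      by_cases h : (c : ℂ) ^ 2 = 1
      · simp only [h, if_true]
        intro x hx
        refine (differentiableAt_inv ?_).differentiableWithinAt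
        rintro rfl
        refine hx.2 ?_
        rw [hi 0 hx.1]
        simp [gi, h]
      · simp only [h, if_false]
        exact differentiableOn_id
    exact h.congr fun x hx => hNi x hx.1
  · exact (hY.mono Set.inter_subset_left).congr fun x hx => hYi x hx.1
  · exact ((hY.inv hY0).mono Set.inter_subset_left).congr fun x hx => hVi x hx.1

end

end Pool.Agent.DL
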